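import Pool.Agent.W133.DQ.Defs

set_option autoImplicit false

open scoped ContDiff
open Set Filter Topology

namespace Pool.Agent.W133.DQ

/-! ## Statements, group U (tools) and group B (leafwise perfectness). -/

/-- PERT: `C^1`-small perturbations of the identity, with a parameter. -/
def S_PERT : Prop := ∀ u : ℝ × P2 → P2, ContDiff ℝ ∞ u →
  (∀ (t : ℝ) (p : P2), ‖fderiv ℝ (fun q : P2 => u (t, q)) p‖ ≤ 1 / 2) →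
  ∃ M : ℝ → Equiv.Perm P2, (∀ t p, M t p = p + u (t, p)) ∧
    ContDiff ℝ ∞ (fun q : ℝ × P2 => (M q.1)⁻¹ q.2)

/-- LPINV: monotone in one real variable, all other variables are parameters. -/
def S_LPINV : Prop := ∀ (E : Type) [NormedAddCommGroup E] [NormedSpace ℝ E] [CompleteSpace E]
  (w : ℝ × E → ℝ), ContDiff ℝ ∞ w → (∀ (x : ℝ) (e : E), -1 < deriv (fun s => w (s, e)) x) →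
  (∀ e : E, ∃ C : ℝ, ∀ x : ℝ, |w (x, e)| ≤ C) →
  ∃ M : Equiv.Perm (ℝ × E), (∀ q, M q = (q.1 + w q, q.2)) ∧ ContDiff ℝ ∞ (fun q => M⁻¹ q)

/-- FLOW: complete smooth flows of globally Lipschitz vector fields. -/
def S_FLOW : Prop := ∀ (E : Type) [NormedAddCommGroup E] [NormedSpace ℝ E] [CompleteSpace E]
  (X : E → E), ContDiff ℝ ∞ X → (∃ K : NNReal, LipschitzWith K X) →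
  ∃ Φ : ℝ → Equiv.Perm E, Φ 0 = 1 ∧ (∀ s t, Φ (s + t) = Φ s * Φ t) ∧
    ContDiff ℝ ∞ (fun q : ℝ × E => Φ q.1 q.2) ∧
    ∀ t p, HasDerivAt (fun s => Φ s p) (X (Φ t p)) t

/-- TRDC: translations and dilations, cut off. -/
def S_TRDC : Prop :=
  (∀ (R : ℝ) (v : P2), ∃ σ ∈ DC, ∀ p, ‖p‖ ≤ R → σ p = p + v) ∧
  (∀ (R a : ℝ), 0 < a → ∃ σ ∈ DC, ∀ p, ‖p‖ ≤ R → σ p = a • p)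

/-- CONJL: a homomorphism on `DC` is invariant under conjugation by maps that agree with an element
of `DC` on the support. -/
def S_CONJL : Prop := ∀ L : Equiv.Perm P2 → ℝ, HomOn DC L →
  (∀ f ∈ DC, ∀ v : P2, tr v * f * (tr v)⁻¹ ∈ DC ∧ L (tr v * f * (tr v)⁻¹) = L f) ∧
  (∀ f ∈ DC, ∀ g ∈ DC, ∀ a : ℝ, 0 < a → (∀ p, g (a • p) = a • f p) → L g = L f)

/-- GU: existence of `g_u`. -/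
def S_GU : Prop := ∀ u : P2 → ℝ, ContDiff ℝ ∞ u → (∃ a b : ℝ, SuppBox a b u) → NB 1 u (1 / 2) →
  ∃ f ∈ LP, IsG f u

/-- NV: the displacement of the inverse. -/
def S_NV : Prop :=
  (∀ (f : Equiv.Perm P2) (u : P2 → ℝ), IsG f u → IsG f⁻¹ (nv u)) ∧
  (∀ (f g : Equiv.Perm P2) (u v : P2 → ℝ), IsG f u → IsG g v → IsG (f * g) (star u v)) ∧
  (∀ u : P2 → ℝ, ContDiff ℝ ∞ u → NB 1 u (1 / 2) → (∃ C : ℝ, ∀ p, |u p| ≤ C) →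
    ContDiff ℝ ∞ (nv u) ∧ (∀ p, nv u p + u (p.1 + nv u p, p.2) = 0) ∧
    (∀ p, |nv u p| ≤ 2 * |u p|) ∧
    (∀ C : ℝ, (∀ p, |u p| ≤ C) → ∀ p, |nv u p| ≤ C) ∧
    (∀ p, u p = 0 → nv u p = 0)) ∧
  (∀ u v : P2 → ℝ, ContDiff ℝ ∞ u → ContDiff ℝ ∞ v → NB 1 u (1 / 2) → NB 1 v (1 / 2) →
    (∃ C : ℝ, ∀ p, |u p| ≤ C) → (∃ C : ℝ, ∀ p, |v p| ≤ C) →
    ∀ d : ℝ, (∀ p, |u p - v p| ≤ d) → ∀ p, |nv u p - nv v p| ≤ 2 * d)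

/-- CUT: properties of the cut-off functions. -/
def S_CUT : Prop :=
  (∀ a b : ℝ, 0 < a → a < b → ContDiff ℝ ∞ (pl a b) ∧ (∀ x, 0 ≤ pl a b x ∧ pl a b x ≤ 1) ∧
    (∀ x, |x| ≤ a → pl a b x = 1) ∧ (∀ x, b ≤ |x| → pl a b x = 0)) ∧
  (ContDiff ℝ ∞ chi ∧ (∀ x, 0 ≤ chi x ∧ chi x ≤ 1) ∧ (∀ x, chi (x + 1) = chi x) ∧
    (∀ x, 3/10 ≤ x → x ≤ 7/10 → chi x = 1) ∧ (∀ x, |x| ≤ 1/10 → chi x = 0) ∧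
    (∀ x, 0 ≤ x → x ≤ 1 → chi x = chi0 x)) ∧
  (ContDiff ℝ ∞ the ∧ (∀ x, 0 ≤ the x ∧ the x ≤ 1) ∧ (∀ x, the (x + 2) = the x) ∧
    (∀ x, |x| ≤ 2/5 → the x = 1) ∧ (∀ x, 4/5 ≤ x → x ≤ 6/5 → the x = 0) ∧
    (∀ x, |x| ≤ 1 → the x = the0 x)) ∧
  (∀ r : ℕ, ∃ C : ℝ, (∀ x, ‖iteratedFDeriv ℝ r chi x‖ ≤ C) ∧ (∀ x, ‖iteratedFDeriv ℝ r the x‖ ≤ C) ∧
    (∀ x, ‖iteratedFDeriv ℝ r chi0 x‖ ≤ C) ∧ (∀ x, ‖iteratedFDeriv ℝ r kap x‖ ≤ C) ∧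
    (∀ x, ‖iteratedFDeriv ℝ r the0 x‖ ≤ C) ∧ (∀ x, ‖iteratedFDeriv ℝ r kap1 x‖ ≤ C))

/-! ### Roll-up algebra -/

/-- ROLLEQ -/
def S_ROLLEQ : Prop := ∀ L : Equiv.Perm P2 → ℝ, HomOn DC L → ∀ P ∈ LP, ∀ Q ∈ LP,
  (∀ p, |(P p).1 - p.1| ≤ 1 / 2) → (∀ p, |(Q p).1 - p.1| ≤ 1 / 2) →
  ∀ F : P2 → P2, Roll P F → Roll Q F → L P = L Q

/-- ROLLMUL -/
def S_ROLLMUL : Prop := ∀ P ∈ LP, ∀ Q ∈ LP,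
  (∀ p, |(P p).1 - p.1| ≤ 1 / 2) → (∀ p, |(Q p).1 - p.1| ≤ 1 / 2) →
  ∀ a : ℝ, (∀ p : P2, a ≤ p.1 → P p = p) → (∀ p : P2, p.1 ≤ a + 4 → Q p = p) →
  ∀ F G : P2 → P2, Roll P F → Roll Q G → Roll (Q * P) (G ∘ F)

/-- ROLLSH -/
def S_ROLLSH : Prop := ∀ P ∈ LP, (∀ p, |(P p).1 - p.1| ≤ 1 / 2) → ∀ F : P2 → P2, Roll P F →
  ∀ j : ℤ, Roll (tr ((j : ℝ), 0) * P * (tr ((j : ℝ), 0))⁻¹) F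

/-- UNROLL -/
def S_UNROLL : Prop := ∃ δ : ℝ, 0 < δ ∧ ∀ f : P2 → ℝ, ContDiff ℝ ∞ f →
  (∀ p : P2, f (p.1 + 1, p.2) = f p) → (∃ B : ℝ, ∀ p : P2, B ≤ |p.2| → f p = 0) →
  (∀ p, |f p| ≤ δ) → NB 1 f δ →
  ∃ P1 ∈ LP, ∃ P2' ∈ LP, IsG P1 (un1 f) ∧ IsG P2' (un2 f) ∧
    (∀ p, |un1 f p| ≤ 1 / 2) ∧ (∀ p, |un2 f p| ≤ 1 / 2) ∧
    Roll (P1 * (tr (-8, 0) * P2' * (tr (-8, 0))⁻¹)) (fun p => (p.1 + f p, p.2))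

/-- UADD: additivity of the invariant of periodic displacements (from ROLLEQ, ROLLMUL, ROLLSH,
UNROLL, CONJL). -/
def S_UADD : Prop := ∀ L : Equiv.Perm P2 → ℝ, HomOn DC L → ∃ δ : ℝ, 0 < δ ∧
  ∀ f h : P2 → ℝ, ContDiff ℝ ∞ f → ContDiff ℝ ∞ h →
  (∀ p : P2, f (p.1 + 1, p.2) = f p) → (∀ p : P2, h (p.1 + 1, p.2) = h p) →
  (∃ B : ℝ, ∀ p : P2, B ≤ |p.2| → f p = 0 ∧ h p = 0) →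
  (∀ p, |f p| ≤ δ) → NB 1 f δ → (∀ p, |h p| ≤ δ) → NB 1 h δ →
  ∀ F1 F2 H1 H2 S1 S2 : Equiv.Perm P2, F1 ∈ LP → F2 ∈ LP → H1 ∈ LP → H2 ∈ LP → S1 ∈ LP → S2 ∈ LP →
  IsG F1 (un1 f) → IsG F2 (un2 f) → IsG H1 (un1 h) → IsG H2 (un2 h) →
  IsG S1 (un1 (star f h)) → IsG S2 (un2 (star f h)) →
  L S1 + L S2 = (L F1 + L F2) + (L H1 + L H2)

/-- SHEAR: shears have zero invariant (from UADD, CONJL and the trick `s = w∘φ - w`). -/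
def S_SHEAR : Prop := ∀ L : Equiv.Perm P2 → ℝ, HomOn DC L → ∀ B : ℝ, ∃ δ : ℝ, 0 < δ ∧
  ∀ s : ℝ → ℝ, ContDiff ℝ ∞ s → (∀ y, B ≤ |y| → s y = 0) → (∀ y, |s y| ≤ δ) →
  (∀ y, |deriv s y| ≤ δ) →
  ∀ F1 ∈ LP, ∀ F2 ∈ LP, IsG F1 (un1 (fun p => s p.2)) → IsG F2 (un2 (fun p => s p.2)) →
  L F1 + L F2 = 0

/-- RU: invariance under the stages R and U. -/
def S_RU : Prop := ∀ L : Equiv.Perm P2 → ℝ, HomOn DC L → ∀ A : ℕ, 1 ≤ A → ∃ δ : ℝ, 0 < δ ∧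
  ∀ v : P2 → ℝ, ContDiff ℝ ∞ v → SuppBox 1 1 v → NB 1 v δ →
  ∀ P ∈ LP, IsG P (dil A v) → ∀ Q ∈ LP, IsG Q (SU (SR A v)) → L P = L Q

/-- YL: invariance under the stage Y. -/
def S_YL : Prop := ∀ L : Equiv.Perm P2 → ℝ, HomOn DC L → ∀ A : ℕ, 1 ≤ A → ∃ δ : ℝ, 0 < δ ∧
  ∀ W : P2 → ℝ, ContDiff ℝ ∞ W → SuppBox 1 A W → NB 1 W δ →
  ∀ P ∈ LP, IsG P W → ∀ Q ∈ LP, IsG Q (SY A W) → L P = L Q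

/-! ### Estimates -/

/-- EC0: the composition estimate. -/
def S_EC0 : Prop := ∀ r : ℕ, 1 ≤ r → ∃ C : ℝ, 0 ≤ C ∧ ∀ u v : P2 → ℝ, ContDiff ℝ ∞ u →
  ContDiff ℝ ∞ v → ∀ a δu δv bu bv : ℝ, 0 ≤ a → 0 ≤ δu → 0 ≤ δv → 0 ≤ bu → 0 ≤ bv →
  (∀ j : ℕ, 1 ≤ j → j < r → NB j u a ∧ NB j v a) → NB 1 u δu → NB 1 v δv → NB r u bu → NB r v bv →
  NB r (star u v) ((1 + δu) * bv + (1 + δv) ^ r * bu + C * a ^ 2 * (1 + a) ^ r)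

/-- CH0: chains, smoothness, size, `C^0`-Lipschitz dependence. -/
def S_CH0 : Prop := ∀ M : ℕ, ∃ δ : ℝ, 0 < δ ∧ ∀ w w' : ℕ → P2 → ℝ,
  (∀ i, ContDiff ℝ ∞ (w i)) → (∀ i, ContDiff ℝ ∞ (w' i)) →
  ContDiff ℝ ∞ (chain w M) ∧
  (∀ e : ℝ, (∀ i, i < M → ∀ p, |w i p| ≤ e) → ∀ p, |chain w M p| ≤ M * e) ∧
  (∀ d : ℝ, 0 ≤ d → d ≤ δ → (∀ i, i < M → NB 1 (w i) d) → NB 1 (chain w M) (2 * M * d)) ∧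
  ((∀ i, i < M → NB 1 (w i) δ) → (∀ i, i < M → NB 1 (w' i) δ) → ∀ d : ℝ,
    (∀ i, i < M → ∀ p, |w i p - w' i p| ≤ d) → ∀ p, |chain w M p - chain w' M p| ≤ 2 * M * d)

/-- CH1: chains, small regime. -/
def S_CH1 : Prop := ∀ M : ℕ, ∃ ε C : ℝ, 0 < ε ∧ 0 < C ∧ ∀ w : ℕ → P2 → ℝ,
  (∀ i, ContDiff ℝ ∞ (w i)) → ∀ a b : ℝ, 0 ≤ a → a ≤ ε → 0 ≤ b →
  (∀ i, i < M → ∀ j : ℕ, 1 ≤ j → j ≤ 4 → NB j (w i) a) → (∀ i, i < M → NB 4 (w i) b) →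
  NB 4 (chain w M) (M * b + C * a ^ 2) ∧ ∀ j : ℕ, 1 ≤ j → j ≤ 4 → NB j (chain w M) (C * a)

/-- CH2: chains, large regime. -/
def S_CH2 : Prop := ∀ M : ℕ, ∃ δ : ℝ, 0 < δ ∧ ∀ (r : ℕ) (m : ℝ), 2 ≤ r → ∃ c : ℝ, 0 ≤ c ∧
  ∀ (w : ℕ → P2 → ℝ) (b : ℝ), (∀ i, ContDiff ℝ ∞ (w i)) → 0 ≤ b →
  (∀ i, i < M → NB 1 (w i) δ) → (∀ i, i < M → ∀ j : ℕ, 1 ≤ j → j < r → NB j (w i) m) →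
  (∀ i, i < M → NB r (w i) b) →
  NB r (chain w M) (2 * M * 2 ^ r * b + c) ∧ ∀ j : ℕ, 1 ≤ j → j < r → NB j (chain w M) c

/-- EI1: the inverse, small regime. -/
def S_EI1 : Prop := ∃ C ε : ℝ, 0 < C ∧ 0 < ε ∧ ∀ u : P2 → ℝ, ContDiff ℝ ∞ u →
  (∃ c : ℝ, ∀ p, |u p| ≤ c) → ∀ a : ℝ, 0 ≤ a → a ≤ ε → (∀ j : ℕ, 1 ≤ j → j ≤ 4 → NB j u a) →
  ∀ j : ℕ, 1 ≤ j → j ≤ 4 → NB j (nv u) (C * a)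

/-- EI2: the inverse, large regime. -/
def S_EI2 : Prop := ∀ r : ℕ, 2 ≤ r → ∀ m : ℝ, ∃ c : ℝ, 0 ≤ c ∧ ∀ u : P2 → ℝ, ContDiff ℝ ∞ u →
  (∃ c : ℝ, ∀ p, |u p| ≤ c) → ∀ b : ℝ, 0 ≤ b → NB 1 u (1 / 4) →
  (∀ j : ℕ, 1 ≤ j → j < r → NB j u m) → NB r u b →
  NB r (nv u) (2 ^ (r + 1) * b + c) ∧ ∀ j : ℕ, 1 ≤ j → j < r → NB j (nv u) c

/-- EM: multiplication by a cut-off function with bounded derivatives. -/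
def S_EM : Prop := ∀ η : P2 → ℝ, ContDiff ℝ ∞ η → (∀ p, |η p| ≤ 1) →
  (∀ r : ℕ, ∃ C : ℝ, NB r η C) →
  (∃ C : ℝ, 0 ≤ C ∧ ∀ (u : P2 → ℝ) (a : ℝ), ContDiff ℝ ∞ u → 0 ≤ a → ∀ k : ℕ, k ≤ 4 →
    (∀ j : ℕ, j ≤ k → NB j u a) → NB k (fun p => η p * u p) (C * a)) ∧
  (∀ (r : ℕ) (m : ℝ), ∃ c : ℝ, 0 ≤ c ∧ ∀ (u : P2 → ℝ) (b : ℝ), ContDiff ℝ ∞ u → 0 ≤ b →
    (∀ j : ℕ, j < r → NB j u m) → NB r u b → NB r (fun p => η p * u p) (b + c))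

/-- POIN: Poincare inequalities. -/
def S_POIN : Prop :=
  (∀ (u : P2 → ℝ) (B : ℝ) (j : ℕ) (M : ℝ), ContDiff ℝ ∞ u → SuppBox 1 B u → NB (j + 1) u M →
    NB j u (2 * M)) ∧
  (∀ (f : P2 → ℝ) (j : ℕ) (M : ℝ), ContDiff ℝ ∞ f → (∀ p : P2, f (p.1 + 1, p.2) = f p) →
    (∀ y : ℝ, f (0, y) = 0) → NB (j + 1) f M → NB j f (4 ^ (j + 1) * M)) ∧
  (∀ (f : P2 → ℝ) (j : ℕ) (M : ℝ), ContDiff ℝ ∞ f → NB j f M → NB j (strip f) (2 * M))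

/-- R0: structure of stage R. -/
def S_R0 : Prop := ∀ A : ℕ, 1 ≤ A → ∃ δ C : ℝ, 0 < δ ∧ 0 < C ∧ ∀ v : P2 → ℝ, ContDiff ℝ ∞ v →
  SuppBox 1 1 v → ∀ d : ℝ, 0 ≤ d → d ≤ δ → NB 1 v d →
  ContDiff ℝ ∞ (SR A v) ∧ (∀ p : P2, SR A v (p.1 + 1, p.2) = SR A v p) ∧
  (∀ p : P2, (A : ℝ) ≤ |p.2| → SR A v p = 0) ∧ (∀ p, |SR A v p| ≤ C * d) ∧ NB 1 (SR A v) (C * d) ∧
  ∃ P ∈ LP, IsG P (dil A v) ∧ (∀ p, |(P p).1 - p.1| ≤ 1 / 2) ∧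
    Roll P (fun p => (p.1 + SR A v p, p.2))

/-- R1: stage R, small regime. -/
def S_R1 : Prop := ∃ K : ℝ, 0 < K ∧ ∀ A : ℕ, 1 ≤ A → ∃ ε C : ℝ, 0 < ε ∧ 0 < C ∧ ∀ v : P2 → ℝ,
  ContDiff ℝ ∞ v → SuppBox 1 1 v → ∀ a : ℝ, 0 ≤ a → a ≤ ε → (∀ j : ℕ, j ≤ 4 → NB j v a) →
  NB 4 (SR A v) (K / (A : ℝ) ^ 2 * a + C * a ^ 2)

/-- R2: stage R, large regime. -/
def S_R2 : Prop := ∃ K Q : ℝ, 1 ≤ K ∧ 1 ≤ Q ∧ ∀ A : ℕ, 1 ≤ A → ∃ δ : ℝ, 0 < δ ∧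
  ∀ (r : ℕ) (m : ℝ), 2 ≤ r → ∃ c : ℝ, 0 ≤ c ∧ ∀ (v : P2 → ℝ) (b : ℝ), ContDiff ℝ ∞ v →
  SuppBox 1 1 v → NB 1 v δ → (∀ j : ℕ, j < r → NB j v m) → 0 ≤ b → NB r v b →
  NB r (SR A v) (K * Q ^ r * (A : ℝ) ^ (2 - (r : ℤ)) * b + c) ∧ ∀ j : ℕ, j < r → NB j (SR A v) c

/-- RLIP: stage R is Lipschitz in the sup norm. -/
def S_RLIP : Prop := ∀ A : ℕ, 1 ≤ A → ∃ δ C : ℝ, 0 < δ ∧ 0 < C ∧ ∀ u v : P2 → ℝ, ContDiff ℝ ∞ u →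
  ContDiff ℝ ∞ v → NB 1 u δ → NB 1 v δ → ∀ d : ℝ, (∀ p, |u p - v p| ≤ d) →
  ∀ p, |SR A u p - SR A v p| ≤ C * d

/-- U0: structure of stage U. -/
def S_U0 : Prop := ∃ δ C : ℝ, 0 < δ ∧ 0 < C ∧ ∀ (f : P2 → ℝ) (B : ℝ), ContDiff ℝ ∞ f →
  (∀ p : P2, f (p.1 + 1, p.2) = f p) → (∀ p : P2, B ≤ |p.2| → f p = 0) →
  ∀ d : ℝ, 0 ≤ d → d ≤ δ → NB 1 f d →
  ContDiff ℝ ∞ (SU f) ∧ SuppBox 1 B (SU f) ∧ (∀ p, |SU f p| ≤ C * d) ∧ NB 1 (SU f) (C * d)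

/-- U1: stage U, small regime. -/
def S_U1 : Prop := ∃ ε K : ℝ, 0 < ε ∧ 0 < K ∧ ∀ f : P2 → ℝ, ContDiff ℝ ∞ f →
  (∀ p : P2, f (p.1 + 1, p.2) = f p) → ∀ b : ℝ, 0 ≤ b → b ≤ ε → NB 4 f b →
  ∀ j : ℕ, j ≤ 4 → NB j (SU f) (K * b)

/-- U2: stage U, large regime. -/
def S_U2 : Prop := ∃ K Q δ : ℝ, 1 ≤ K ∧ 1 ≤ Q ∧ 0 < δ ∧ ∀ (r : ℕ) (m : ℝ), 2 ≤ r →
  ∃ c : ℝ, 0 ≤ c ∧ ∀ (f : P2 → ℝ) (b : ℝ), ContDiff ℝ ∞ f → (∀ p : P2, f (p.1 + 1, p.2) = f p) →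
  NB 1 f δ → (∀ j : ℕ, j < r → NB j f m) → 0 ≤ b → NB r f b →
  NB r (SU f) (K * Q ^ r * b + c) ∧ ∀ j : ℕ, j < r → NB j (SU f) c

/-- ULIP: stage U is Lipschitz in the sup norm. -/
def S_ULIP : Prop := ∃ δ C : ℝ, 0 < δ ∧ 0 < C ∧ ∀ f h : P2 → ℝ, ContDiff ℝ ∞ f →
  ContDiff ℝ ∞ h → (∀ p : P2, f (p.1 + 1, p.2) = f p) → (∀ p : P2, h (p.1 + 1, p.2) = h p) →
  NB 1 f δ → NB 1 h δ → ∀ d : ℝ, (∀ p, |f p - h p| ≤ d) → ∀ p, |SU f p - SU h p| ≤ C * d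

/-- Y0: structure of stage Y. -/
def S_Y0 : Prop := ∀ A : ℕ, 1 ≤ A → ∃ δ C : ℝ, 0 < δ ∧ 0 < C ∧ ∀ W : P2 → ℝ, ContDiff ℝ ∞ W →
  SuppBox 1 A W → ∀ d : ℝ, 0 ≤ d → d ≤ δ → NB 1 W d →
  ContDiff ℝ ∞ (SY A W) ∧ SuppBox 1 1 (SY A W) ∧ (∀ p, |SY A W p| ≤ C * d) ∧ NB 1 (SY A W) (C * d)

/-- Y1: stage Y, small regime. -/
def S_Y1 : Prop := ∃ K : ℝ, 0 < K ∧ ∀ A : ℕ, 1 ≤ A → ∃ ε C : ℝ, 0 < ε ∧ 0 < C ∧ ∀ W : P2 → ℝ,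
  ContDiff ℝ ∞ W → SuppBox 1 A W → ∀ a : ℝ, 0 ≤ a → a ≤ ε → (∀ j : ℕ, j ≤ 4 → NB j W a) →
  NB 4 (SY A W) (K * A * a + C * a ^ 2)

/-- Y2: stage Y, large regime. -/
def S_Y2 : Prop := ∃ K Q : ℝ, 1 ≤ K ∧ 1 ≤ Q ∧ ∀ A : ℕ, 1 ≤ A → ∃ δ : ℝ, 0 < δ ∧
  ∀ (r : ℕ) (m : ℝ), 2 ≤ r → ∃ c : ℝ, 0 ≤ c ∧ ∀ (W : P2 → ℝ) (b : ℝ), ContDiff ℝ ∞ W →
  SuppBox 1 A W → NB 1 W δ → (∀ j : ℕ, j < r → NB j W m) → 0 ≤ b → NB r W b →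
  NB r (SY A W) (K * Q ^ r * A * b + c) ∧ ∀ j : ℕ, j < r → NB j (SY A W) c

/-- YLIP: stage Y is Lipschitz in the sup norm. -/
def S_YLIP : Prop := ∀ A : ℕ, 1 ≤ A → ∃ δ C : ℝ, 0 < δ ∧ 0 < C ∧ ∀ u v : P2 → ℝ, ContDiff ℝ ∞ u →
  ContDiff ℝ ∞ v → SuppBox 1 A u → SuppBox 1 A v → NB 1 u δ → NB 1 v δ →
  ∀ d : ℝ, (∀ p, |u p - v p| ≤ d) → ∀ p, |SY A u p - SY A v p| ≤ C * d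

/-! ### The fixed point -/

/-- the compact convex set. -/
def KK (ε : ℕ → ℝ) : Set (P2 → ℝ) :=
  {u | ContDiff ℝ ∞ u ∧ SuppBox 1 1 u ∧ ∀ r : ℕ, 4 ≤ r → NB r u (ε r)}

/-- SCHAU: Schauder's theorem on `KK`. -/
def S_SCHAU : Prop := ∀ ε : ℕ → ℝ, (∀ r, 0 ≤ ε r) → ∀ T : (P2 → ℝ) → (P2 → ℝ),
  (∀ u ∈ KK ε, T u ∈ KK ε) →
  (∃ C : ℝ, ∀ u ∈ KK ε, ∀ v ∈ KK ε, ∀ d : ℝ, (∀ p, |u p - v p| ≤ d) → ∀ p, |T u p - T v p| ≤ C * d) →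
  ∃ u ∈ KK ε, T u = u

/-- PSI: everything about `Psi` (from all stage statements). -/
def S_PSI : Prop := ∃ A : ℕ, 1 ≤ A ∧ ∃ ε₀ : ℝ, 0 < ε₀ ∧
  (∀ v : P2 → ℝ, ContDiff ℝ ∞ v → SuppBox 1 1 v → NB 4 v ε₀ →
    ContDiff ℝ ∞ (Psi A v) ∧ SuppBox 1 1 (Psi A v)) ∧
  (∀ (v : P2 → ℝ) (a : ℝ), ContDiff ℝ ∞ v → SuppBox 1 1 v → 0 ≤ a → a ≤ ε₀ → NB 4 v a →
    NB 4 (Psi A v) (a / 4)) ∧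
  (∀ r : ℕ, 4 < r → ∀ m : ℝ, ∃ c : ℝ, 0 ≤ c ∧ ∀ (v : P2 → ℝ) (b : ℝ), ContDiff ℝ ∞ v →
    SuppBox 1 1 v → NB 4 v ε₀ → (∀ j : ℕ, j < r → NB j v m) → 0 ≤ b → NB r v b →
    NB r (Psi A v) (b / 4 + c)) ∧
  (∃ C : ℝ, ∀ u v : P2 → ℝ, ContDiff ℝ ∞ u → ContDiff ℝ ∞ v → SuppBox 1 1 u → SuppBox 1 1 v →
    NB 4 u ε₀ → NB 4 v ε₀ → ∀ d : ℝ, (∀ p, |u p - v p| ≤ d) → ∀ p, |Psi A u p - Psi A v p| ≤ C * d) ∧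
  (∀ L : Equiv.Perm P2 → ℝ, HomOn DC L → ∃ ε₁ : ℝ, 0 < ε₁ ∧ ∀ v : P2 → ℝ, ContDiff ℝ ∞ v →
    SuppBox 1 1 v → NB 4 v ε₁ → ∀ P ∈ LP, IsG P v → ∀ Q ∈ LP, IsG Q (Psi A v) → L P = L Q)

/-- FIX: homomorphisms vanish on small leaf preserving diffeomorphisms (from PSI, SCHAU, EC0, GU). -/
def S_FIX : Prop := ∀ L : Equiv.Perm P2 → ℝ, HomOn DC L → ∃ ε : ℝ, 0 < ε ∧
  ∀ v : P2 → ℝ, ContDiff ℝ ∞ v → SuppBox 1 1 v → NB 4 v ε → ∀ P ∈ LP, IsG P v → L P = 0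

/-- BIG: homomorphisms vanish on all leaf preserving diffeomorphisms (from FIX, CONJL). -/
def S_BIG : Prop := ∀ L : Equiv.Perm P2 → ℝ, HomOn DC L → ∀ P ∈ LP, L P = 0

end Pool.Agent.W133.DQ
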