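import Pool.Agent.W133.DQ.Defs

set_option autoImplicit false

open scoped ContDiff
open Set Filter Topology

namespace Pool.Agent.W133.DQ

/-! ## Group F (germs along the boundary) and group G (the disk). -/

/-- closed lower half plane (universal cover of the punctured closed disk). -/
abbrev HH : Type := {p : P2 // p.2 ≤ 0}

/-- horizontal translation of the half plane. -/
def hT (a : ℝ) : Equiv.Perm HH where
  toFun p := ⟨(p.1.1 + a, p.1.2), p.2⟩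
  invFun p := ⟨(p.1.1 - a, p.1.2), p.2⟩
  left_inv p := by ext <;> simp
  right_inv p := by ext <;> simp

@[simp] theorem hT_coe (a : ℝ) (p : HH) : ((hT a p : HH) : P2) = (p.1.1 + a, p.1.2) := rfl

/-- `f` is the restriction of a smooth map of the plane. -/
def ExtH (f : Equiv.Perm HH) : Prop := ∃ F : P2 → P2, ContDiff ℝ ∞ F ∧ ∀ p : HH, (f p : P2) = F p

/-- Lifts of the diffeomorphisms of the punctured disk which are the identity near the puncture. -/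
def BB : Subgroup (Equiv.Perm HH) where
  carrier := {f | ExtH f ∧ ExtH f⁻¹ ∧ (∀ p : HH, f (hT 1 p) = hT 1 (f p)) ∧
    (∀ p : HH, p.1.2 = 0 ↔ (f p).1.2 = 0) ∧ ∃ l : ℝ, ∀ p : HH, p.1.2 ≤ l → f p = p}
  mul_mem' := by
    rintro f g ⟨⟨F, hF, hF'⟩, ⟨F2, hF2, hF2'⟩, hf3, hf4, l, hl⟩
      ⟨⟨G, hG, hG'⟩, ⟨G2, hG2, hG2'⟩, hg3, hg4, m, hm⟩
    refine ⟨⟨F ∘ G, hF.comp hG, fun p => ?_⟩, ⟨G2 ∘ F2, hG2.comp hF2, fun p => ?_⟩, fun p => ?_,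
      fun p => ?_, min l m, fun p hp => ?_⟩
    · rw [Equiv.Perm.mul_apply, hF', hG']; rfl
    · rw [mul_inv_rev, Equiv.Perm.mul_apply, hG2', hF2']; rfl
    · rw [Equiv.Perm.mul_apply, Equiv.Perm.mul_apply, hg3, hf3]
    · rw [Equiv.Perm.mul_apply, hg4, hf4]
    · rw [Equiv.Perm.mul_apply, hm p (le_trans hp (min_le_right _ _)),
        hl p (le_trans hp (min_le_left _ _))]
  one_mem' := ⟨⟨id, contDiff_id, fun _ => rfl⟩, ⟨id, contDiff_id, fun _ => rfl⟩, fun _ => rfl,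
    fun _ => Iff.rfl, 0, fun _ _ => rfl⟩
  inv_mem' := by
    rintro f ⟨hF, hF2, hf3, hf4, l, hl⟩
    refine ⟨hF2, by simpa using hF, fun p => ?_, fun p => ?_, l, fun p hp => ?_⟩
    · rw [Equiv.Perm.inv_eq_iff_eq, hf3, show f (f⁻¹ p) = p from f.apply_symm_apply p]
    · rw [hf4 (f⁻¹ p), show f (f⁻¹ p) = p from f.apply_symm_apply p]
    · rw [Equiv.Perm.inv_eq_iff_eq, hl p hp]

/-- elements which are an integer translation near the boundary line. -/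
def BB0 : Set (Equiv.Perm HH) :=
  {f | f ∈ BB ∧ ∃ (k : ℤ) (ε : ℝ), 0 < ε ∧ ∀ p : HH, -ε < p.1.2 → (f p : P2) = (p.1.1 + k, p.1.2)}

/-- the normal derivative of `f` along the boundary line is `b`. -/
def ND (f : Equiv.Perm HH) (b : ℝ → ℝ) : Prop :=
  ∃ F : P2 → P2, ContDiff ℝ ∞ F ∧ (∀ p : HH, (f p : P2) = F p) ∧
    ∀ x : ℝ, (fderiv ℝ F (x, 0) (0, 1)).2 = b x

/-- the boundary point with coordinate `x`. -/
def bp (x : ℝ) : HH := ⟨(x, 0), le_refl 0⟩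

/-- lifts of orientation preserving smooth circle diffeomorphisms (same as `Helper339.CW.IsD 1`). -/
def CD (X : Equiv.Perm ℝ) : Prop :=
  (ContDiff ℝ ∞ (fun x => X x) ∧ ContDiff ℝ ∞ (fun x => X⁻¹ x) ∧ StrictMono (fun x => X x)) ∧
    ∀ x, X (x + 1) = X x + 1

/-- COMC: every lift is a commutator up to an integer translation (starting library, main_line). -/
def S_COMC : Prop := ∀ X : Equiv.Perm ℝ, CD X → ∃ (A B : Equiv.Perm ℝ) (m : ℤ), CD A ∧ CD B ∧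
  ∀ x, X x = (A * B * A⁻¹ * B⁻¹) x + m

/-- SCAL: normal scalings. -/
def S_SCAL : Prop := ∃ S : (ℝ → ℝ) → Equiv.Perm HH,
  (∀ β : ℝ → ℝ, ContDiff ℝ ∞ β → (∀ x, β (x + 1) = β x) → S β ∈ BB ∧
    ∃ ε : ℝ, 0 < ε ∧ ∀ p : HH, -ε < p.1.2 → (S β p : P2) = (p.1.1, Real.exp (β p.1.1) * p.1.2)) ∧
  (∀ β β' : ℝ → ℝ, ContDiff ℝ ∞ β → (∀ x, β (x + 1) = β x) → ContDiff ℝ ∞ β' →
    (∀ x, β' (x + 1) = β' x) → S (fun x => β x + β' x) = S β * S β')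

/-- EXTC: extension of circle diffeomorphisms. -/
def S_EXTC : Prop := ∀ X : Equiv.Perm ℝ, CD X → ∃ M ∈ BB, ∃ ε : ℝ, 0 < ε ∧
  ∀ p : HH, -ε < p.1.2 → (M p : P2) = (X p.1.1, p.1.2)

/-- EXTB: extension of germs tangent to the identity along the boundary. -/
def S_EXTB : Prop := ∀ (h : P2 → P2) (η : ℝ), 0 < η → ContDiffOn ℝ ∞ h {p : P2 | |p.2| < η} →
  (∀ p : P2, |p.2| < η → h (p.1 + 1, p.2) = h p + (1, 0)) → (∀ x : ℝ, h (x, 0) = (x, 0)) →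
  (∀ x : ℝ, (fderiv ℝ h (x, 0) (0, 1)).2 = 1) →
  ∃ M ∈ BB, ∃ ε : ℝ, 0 < ε ∧ ε < η ∧ ∀ p : HH, -ε < p.1.2 → (M p : P2) = h p

/-- PEXT: the smooth extension of an element of `BB` can be chosen equivariant. -/
def S_PEXT : Prop := ∀ f ∈ BB, ∃ F : P2 → P2, ContDiff ℝ ∞ F ∧ (∀ p : HH, (f p : P2) = F p) ∧
  ∀ p : P2, F (p.1 + 1, p.2) = F p + (1, 0)

/-- FK2: elements tangent to the identity along the boundary. -/
def S_FK2 : Prop := ∀ ν : Equiv.Perm HH → ℝ, HQMOn BB ν → (∀ f ∈ BB0, ν f = 0) → ∀ f ∈ BB,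
  (∀ x, f (bp x) = bp x) → ND f (fun _ => 1) → ν f = 0

/-- FL: normal scalings have zero value. -/
def S_FL : Prop := ∀ ν : Equiv.Perm HH → ℝ, HQMOn BB ν → (∀ f ∈ BB0, ν f = 0) →
  ∀ β : ℝ → ℝ, ContDiff ℝ ∞ β → (∀ x, β (x + 1) = β x) → ∀ f ∈ BB,
  (∃ ε : ℝ, 0 < ε ∧ ∀ p : HH, -ε < p.1.2 → (f p : P2) = (p.1.1, Real.exp (β p.1.1) * p.1.2)) →
  ν f = 0

/-- FK1: elements fixing the boundary pointwise. -/
def S_FK1 : Prop := ∀ ν : Equiv.Perm HH → ℝ, HQMOn BB ν → (∀ f ∈ BB0, ν f = 0) → ∀ f ∈ BB,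
  (∀ x, f (bp x) = bp x) → ν f = 0

/-- FFIN: quasimorphisms on `BB` vanishing on `BB0` are zero. -/
def S_FFIN : Prop := ∀ ν : Equiv.Perm HH → ℝ, HQMOn BB ν → (∀ f ∈ BB0, ν f = 0) → ∀ f ∈ BB, ν f = 0

/-! ### The disk -/

/-- closed unit disk. -/
abbrev DD : Type := {p : P2 // p.1 ^ 2 + p.2 ^ 2 ≤ 1}

/-- the center. -/
def dO : DD := ⟨0, by simp⟩

/-- square of the distance to the center. -/
def nq (p : DD) : ℝ := p.1.1 ^ 2 + p.1.2 ^ 2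

/-- `f` is the restriction of a smooth map of the plane, with positive Jacobian on the disk. -/
def ExtD (f : Equiv.Perm DD) : Prop := ∃ F : P2 → P2, ContDiff ℝ ∞ F ∧
  (∀ p : DD, (f p : P2) = F p) ∧ ∀ p : DD, 0 < (fderiv ℝ F p).det

theorem extD_mul {f g : Equiv.Perm DD} (hf : ExtD f) (hg : ExtD g) : ExtD (f * g) := by
  obtain ⟨F, hF, hF', hF2⟩ := hf
  obtain ⟨G, hG, hG', hG2⟩ := hg
  refine ⟨F ∘ G, hF.comp hG, fun p => ?_, fun p => ?_⟩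
  · rw [Equiv.Perm.mul_apply, hF', hG']; rfl
  · have h1 : fderiv ℝ (F ∘ G) p = (fderiv ℝ F (G p)).comp (fderiv ℝ G p) :=
      fderiv_comp _ (hF.differentiable (by simp) _) (hG.differentiable (by simp) _)
    have h2 : (fderiv ℝ (F ∘ G) p).det = (fderiv ℝ F (G p)).det * (fderiv ℝ G p).det := by
      rw [h1]
      exact LinearMap.det_comp _ _
    rw [h2, ← hG' p]
    exact mul_pos (hF2 _) (hG2 _)

/-- The group `Diff_0(D^2, *)` of orientation preserving smooth diffeomorphisms of the closed unit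
disk fixing the center. -/
def GG : Subgroup (Equiv.Perm DD) where
  carrier := {f | ExtD f ∧ ExtD f⁻¹ ∧ f dO = dO}
  mul_mem' := by
    rintro f g ⟨h1, h2, h3⟩ ⟨k1, k2, k3⟩
    refine ⟨extD_mul h1 k1, ?_, ?_⟩
    · rw [mul_inv_rev]; exact extD_mul k2 h2
    · rw [Equiv.Perm.mul_apply, k3, h3]
  one_mem' := by
    have h : ExtD 1 := ⟨id, contDiff_id, fun _ => rfl, fun p => by
      rw [fderiv_id]; simp [ContinuousLinearMap.det]⟩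
    exact ⟨h, by simpa using h, rfl⟩
  inv_mem' := by
    rintro f ⟨h1, h2, h3⟩
    exact ⟨h2, by simpa using h1, by rw [Equiv.Perm.inv_eq_iff_eq, h3]⟩

/-- identity near the boundary circle. -/
def G0 : Subgroup (Equiv.Perm DD) where
  carrier := {f | f ∈ GG ∧ ∃ ε : ℝ, 0 < ε ∧ ∀ p : DD, 1 - ε < nq p → f p = p}
  mul_mem' := by
    rintro f g ⟨hf, ε, hε, h1⟩ ⟨hg, ε', hε', h2⟩
    refine ⟨GG.mul_mem hf hg, min ε ε', lt_min hε hε', fun p hp => ?_⟩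
    have e1 := min_le_left ε ε'
    have e2 := min_le_right ε ε'
    rw [Equiv.Perm.mul_apply, h2 p (by linarith), h1 p (by linarith)]
  one_mem' := ⟨GG.one_mem, 1, one_pos, fun _ _ => rfl⟩
  inv_mem' := by
    rintro f ⟨hf, ε, hε, h1⟩
    exact ⟨GG.inv_mem hf, ε, hε, fun p hp => by rw [Equiv.Perm.inv_eq_iff_eq, h1 p hp]⟩

/-- identity near the center. -/
def G1 : Subgroup (Equiv.Perm DD) where
  carrier := {f | f ∈ GG ∧ ∃ ε : ℝ, 0 < ε ∧ ∀ p : DD, nq p < ε → f p = p}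
  mul_mem' := by
    rintro f g ⟨hf, ε, hε, h1⟩ ⟨hg, ε', hε', h2⟩
    refine ⟨GG.mul_mem hf hg, min ε ε', lt_min hε hε', fun p hp => ?_⟩
    rw [Equiv.Perm.mul_apply, h2 p (lt_of_lt_of_le hp (min_le_right _ _)),
      h1 p (lt_of_lt_of_le hp (min_le_left _ _))]
  one_mem' := ⟨GG.one_mem, 1, one_pos, fun _ _ => rfl⟩
  inv_mem' := by
    rintro f ⟨hf, ε, hε, h1⟩
    exact ⟨GG.inv_mem hf, ε, hε, fun p hp => by rw [Equiv.Perm.inv_eq_iff_eq, h1 p hp]⟩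

/-- the diffeomorphism `p ↦ p / sqrt (1 + |p|^2)` of the plane onto the open disk. -/
noncomputable def iot (p : P2) : DD :=
  ⟨((Real.sqrt (1 + p.1 ^ 2 + p.2 ^ 2))⁻¹ * p.1, (Real.sqrt (1 + p.1 ^ 2 + p.2 ^ 2))⁻¹ * p.2), by
    have h : (0:ℝ) < 1 + p.1 ^ 2 + p.2 ^ 2 := by positivity
    have h2 := Real.sq_sqrt h.le
    simp only [mul_pow, inv_pow, h2]
    rw [← mul_add, inv_mul_le_iff₀ h]
    linarith⟩

/-- the covering `(x,y) ↦ e^y (cos 2πx, sin 2πx)` of the punctured closed disk by the half plane. -/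
noncomputable def pii (p : HH) : DD :=
  ⟨(Real.exp p.1.2 * Real.cos (2 * Real.pi * p.1.1), Real.exp p.1.2 * Real.sin (2 * Real.pi * p.1.1)),
    by
      have h := Real.sin_sq_add_cos_sq (2 * Real.pi * p.1.1)
      have h2 : Real.exp p.1.2 ≤ 1 := Real.exp_le_one_iff.2 p.2
      have h3 := Real.exp_pos p.1.2
      have h4 : (Real.exp p.1.2 * Real.cos (2 * Real.pi * p.1.1)) ^ 2 +
        (Real.exp p.1.2 * Real.sin (2 * Real.pi * p.1.1)) ^ 2 = Real.exp p.1.2 ^ 2 := by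
        linear_combination Real.exp p.1.2 ^ 2 * h
      simp only [h4]
      nlinarith⟩

/-- JJ: transfer of `DC0` to the disk. -/
def S_JJ : Prop := ∃ J : Equiv.Perm P2 → Equiv.Perm DD, (∀ f ∈ DC0, J f ∈ G0) ∧
  (∀ f ∈ DC0, ∀ g ∈ DC0, J (f * g) = J f * J g) ∧ (∀ f ∈ NP, J f ∈ G1) ∧
  (∀ g ∈ G0, ∃ f ∈ DC0, J f = g ∧ (g ∈ G1 → f ∈ NP)) ∧
  (∀ f ∈ DC0, ∀ p, J f (iot p) = iot (f p))

/-- BDRY: elements of `GG` preserve the boundary circle. -/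
def S_BDRY : Prop := ∀ f ∈ GG, ∀ p : DD, (nq p = 1 ↔ nq (f p) = 1)

/-- GNORM: `G0` and `G1` are normal in `GG`. -/
def S_GNORM : Prop := (∀ a ∈ GG, ∀ n ∈ G0, a * n * a⁻¹ ∈ G0) ∧ (∀ a ∈ GG, ∀ n ∈ G1, a * n * a⁻¹ ∈ G1)

/-- JB: transfer of `BB` to the disk. -/
def S_JB : Prop := ∃ J : Equiv.Perm HH → Equiv.Perm DD, (∀ f ∈ BB, J f ∈ G1) ∧
  (∀ f ∈ BB, ∀ g ∈ BB, J (f * g) = J f * J g) ∧ (∀ f ∈ BB0, J f ∈ G0) ∧
  (∀ g ∈ G1, ∃ f ∈ BB, J f = g) ∧ (∀ f ∈ BB, ∀ p, J f (pii p) = pii (f p))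

/-- FACT: factorisation. -/
def S_FACT : Prop := ∀ g ∈ GG, ∃ a ∈ G0, ∃ b ∈ G1, g = a * b

/-- DISP: quasimorphisms on `GG` are additive on `G0 ⊓ G1`. -/
def S_DISP : Prop := ∀ μ : Equiv.Perm DD → ℝ, HQMOn GG μ → HomOn (G0 ⊓ G1) μ

/-- MAIN: the upper bound. -/
def S_MAIN : Prop := ∃ T ∈ GG, ∀ μ : Equiv.Perm DD → ℝ, HQMOn GG μ → μ T = 0 → HomOn GG μ

/-! ### The lower bound -/

/-- HOMOG: homogenisation. -/
def S_HOMOG : Prop := ∀ (Γ : Type) [Group Γ] (H : Subgroup Γ) (f : Γ → ℝ),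
  (∃ D : ℝ, ∀ a ∈ H, ∀ b ∈ H, |f (a * b) - f a - f b| ≤ D) →
  ∃ μ : Γ → ℝ, HQMOn H μ ∧ ∃ C : ℝ, ∀ a ∈ H, |μ a - f a| ≤ C

/-- LG: lifts of the elements of `GG` to the half plane, with their limit at the puncture. -/
def S_LG : Prop := ∀ g ∈ GG, ∃ (k : HH → HH) (a : ℝ → ℝ), Continuous k ∧
  (∀ p, pii (k p) = g (pii p)) ∧ (∀ p, k (hT 1 p) = hT 1 (k p)) ∧ Continuous a ∧ Monotone a ∧
  (∀ x, a (x + 1) = a x + 1) ∧ Monotone (fun x : ℝ => (k (bp x)).1.1) ∧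
  (∀ p : HH, p.1.2 = 0 → (k p).1.2 = 0) ∧
  (∀ ε : ℝ, 0 < ε → ∃ l : ℝ, ∀ p : HH, p.1.2 ≤ l → |(k p).1.1 - a p.1.1| < ε) ∧
  (∀ K : ℝ, ∃ l : ℝ, ∀ p : HH, p.1.2 ≤ l → (k p).1.2 ≤ K)

/-- QT: the relative rotation quasimorphism. -/
def S_QT : Prop := ∃ f : Equiv.Perm DD → ℝ,
  (∃ D : ℝ, ∀ a ∈ GG, ∀ b ∈ GG, |f (a * b) - f a - f b| ≤ D) ∧
  ∀ M ∈ BB, ∀ g ∈ GG, (∀ p : HH, g (pii p) = pii (M p)) → f g = (M (bp 0)).1.1

/-- LB: there is a homogeneous quasimorphism on `GG` which is not a homomorphism. -/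
def S_LB : Prop := ∃ ψ : Equiv.Perm DD → ℝ, HQMOn GG ψ ∧ ¬ HomOn GG ψ

end Pool.Agent.W133.DQ
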