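import Pool.Agent.W646.DQ.Pert
import Pool.Agent.W646.DQ.Lpinv
import Pool.Agent.W366.DQ.FLOW
import Pool.Agent.W589.DQ.TRDC
import Pool.Agent.W978.DQ.CONJL
import Pool.Agent.W646.DQ.GuNv
import Pool.Agent.W585.DQ.CUT
import Pool.Agent.W485.DQ.RollEq
import Pool.Agent.W485.DQ.Roll
import Pool.Agent.W138.DQ.UNROLL
import Pool.Agent.W803.DQ.UAdd
import Pool.Agent.W308.DQ.SHEAR
import Pool.Agent.W923.DQ.RU
import Pool.Agent.W462.DQ.YL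
import Pool.Agent.W397.DQ.EC0
import Pool.Agent.W645.DQ.CH0
import Pool.Agent.W883.DQ.CH1
import Pool.Agent.W214.DQ.CH2
import Pool.Agent.W692.DQ.EI
import Pool.Agent.W880.DQ.EM
import Pool.Agent.W797.DQ.POIN
import Pool.Agent.W636.DQ.R0
import Pool.Agent.W136.DQ.R1
import Pool.Agent.W589.DQ.R2
import Pool.Agent.W15.DQ.RLIP
import Pool.Agent.W509.DQ.U0
import Pool.Agent.W509.DQ.U12
import Pool.Agent.W509.DQ.ULIP
import Pool.Agent.W291.DQ.Y012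
import Pool.Agent.W918.DQ.YLIP
import Pool.Agent.W143.DQ.SCHAU
import Pool.Agent.W692.DQ.PsiA
import Pool.Agent.W351.DQ.FIX
import Pool.Agent.W249.DQ.Big
import Pool.Agent.W335.DQ.Angle
import Pool.Agent.W509.DQ.Dyn
import Pool.Agent.W67.DQ.LIFT
import Pool.Agent.W853.DQ.Curve
import Pool.Agent.W692.DQ.Straight
import Pool.Agent.W589.DQ.CORR
import Pool.Agent.W589.DQ.PATH
import Pool.Agent.W509.DQ.Fam
import Pool.Agent.W371.DQ.Gen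
import Pool.Agent.W7.DQ.Rot
import Pool.Agent.W853.DQ.DPath
import Pool.Agent.W683.DQ.Frag
import Pool.Agent.W214.DQ.NKILL
import Pool.Agent.W371.DQ.A
import Pool.Agent.W371.DQ.AGL
import Pool.Agent.W585.DQ.SER
import Pool.Agent.W462.DQ.ST0
import Pool.Agent.W646.DQ.Stb
import Pool.Agent.W775.DQ.EXT0
import Pool.Agent.W371.DQ.Lin
import Pool.Agent.W371.DQ.Efin
import Pool.Agent.W120.DQ.PP
import Pool.Agent.W67.DQ.COMC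
import Pool.Agent.W101.DQ.SCAL
import Pool.Agent.W961.DQ.EXTC
import Pool.Agent.W883.DQ.EXTB
import Pool.Agent.W571.DQ.PEXT
import Pool.Agent.W924.DQ.FK2
import Pool.Agent.W589.DQ.FK1
import Pool.Agent.W371.DQ.Ffin
import Pool.Agent.W714.DQ.JJ
import Pool.Agent.W586.DQ.BDRY
import Pool.Agent.W683.DQ.Gnorm
import Pool.Agent.W961.DQ.FACT
import Pool.Agent.W923.DQ.Disp
import Pool.Agent.W120.DQ.MAIN
import Pool.Agent.W120.DQ.HOMOG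
import Pool.Agent.W683.DQ.Qt
import Pool.Agent.W683.DQ.Lb
import Pool.Agent.W597.DQ.BOX
import Pool.Agent.W74.DQ.FL
import Pool.Agent.W853.DQ.JB
import Pool.Agent.W585.DQ.LG

set_option autoImplicit false

/-
Assembly of the two statements `S_MAIN` and `S_LB` from all the parts.
-/

namespace Pool.Agent.W133.DQ

theorem h_CONJL : S_CONJL := W978.DQ.conjl (W589.DQ.trdc W366.DQ.flow)
theorem h_ROLLEQ : S_ROLLEQ := W485.DQ.rolleq h_CONJL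
theorem h_UNROLL : S_UNROLL :=
  W138.DQ.unroll W485.DQ.rollmul W485.DQ.rollsh W585.DQ.cut W646.DQ.nvthm W646.DQ.gu
theorem h_UADD : S_UADD := W803.DQ.uadd h_ROLLEQ W485.DQ.rollmul W485.DQ.rollsh h_UNROLL h_CONJL
theorem h_SHEAR : S_SHEAR := W308.DQ.shear h_UADD h_UNROLL W585.DQ.cut W646.DQ.lpinv
theorem h_CH1 : S_CH1 := W883.DQ.ch1 W397.DQ.ec0
theorem h_CH2 : S_CH2 := W214.DQ.ch2 W397.DQ.ec0 W645.DQ.ch0
theorem h_EI1 : S_EI1 := W692.DQ.ei1 W646.DQ.nvthm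
theorem h_EI2 : S_EI2 := W692.DQ.ei2 W646.DQ.nvthm
theorem h_R0 : S_R0 := W636.DQ.r0 W645.DQ.ch0 W797.DQ.poin W646.DQ.gu
theorem h_R1 : S_R1 := W136.DQ.r1 h_CH1 h_R0
theorem h_R2 : S_R2 := W589.DQ.r2 W645.DQ.ch0 h_CH2 h_R0
theorem h_RLIP : S_RLIP := W15.DQ.rlip W645.DQ.ch0
theorem h_RU : S_RU := W923.DQ.ru h_ROLLEQ h_UNROLL h_UADD h_SHEAR h_CONJL h_R0 W797.DQ.poin
  W646.DQ.nvthm W585.DQ.cut
theorem h_YL : S_YL := W462.DQ.yl h_CONJL W585.DQ.cut W646.DQ.nvthm W646.DQ.gu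
theorem h_U0 : S_U0 := W509.DQ.u0 W585.DQ.cut W646.DQ.nvthm
theorem h_U1 : S_U1 := W509.DQ.u1 W797.DQ.poin W585.DQ.cut W646.DQ.nvthm W397.DQ.ec0 W880.DQ.em
  h_EI1
theorem h_U2 : S_U2 := W509.DQ.u2 W797.DQ.poin W585.DQ.cut W646.DQ.nvthm W397.DQ.ec0 W880.DQ.em
  h_EI2
theorem h_ULIP : S_ULIP := W509.DQ.ulip W585.DQ.cut W646.DQ.nvthm
theorem h_Y0 : S_Y0 := W291.DQ.y0 W645.DQ.ch0 W585.DQ.cut W646.DQ.nvthm W397.DQ.ec0 W880.DQ.em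
  W797.DQ.poin
theorem h_Y1 : S_Y1 := W291.DQ.y1 h_CH1 W585.DQ.cut W646.DQ.nvthm W397.DQ.ec0 W880.DQ.em h_EI1
theorem h_Y2 : S_Y2 := W291.DQ.y2 W645.DQ.ch0 h_CH2 W585.DQ.cut W646.DQ.nvthm W397.DQ.ec0
  W880.DQ.em h_EI2 W797.DQ.poin
theorem h_YLIP : S_YLIP := W918.DQ.ylip W585.DQ.cut W646.DQ.nvthm
theorem h_PSI : S_PSI := W692.DQ.psi h_R0 h_R1 h_R2 h_RLIP h_U0 h_U1 h_U2 h_ULIP h_Y0 h_Y1 h_Y2
  h_YLIP W797.DQ.poin h_RU h_YL h_CONJL W646.DQ.gu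
theorem h_FIX : S_FIX := W351.DQ.fix h_PSI W143.DQ.schau W397.DQ.ec0 W797.DQ.poin W646.DQ.gu
  W646.DQ.nvthm
theorem h_BIG : S_BIG := W249.DQ.big h_FIX h_CONJL W646.DQ.lpinv
theorem h_NOINV : S_NOINV := W509.DQ.noinv W509.DQ.minset W509.DQ.ret
  (W853.DQ.t_curve W67.DQ.lift)
theorem h_STRAIGHT : S_STRAIGHT := W692.DQ.straight W366.DQ.flow (W509.DQ.esc h_NOINV)
theorem h_PATH : S_PATH := W589.DQ.path W335.DQ.t_ANGLE h_STRAIGHT (W589.DQ.corr W646.DQ.lpinv)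
  W646.DQ.lpinv
theorem h_GEN : S_GEN := W371.DQ.gen h_PATH W509.DQ.step W646.DQ.lpinv
theorem h_PP : S_PP := W120.DQ.pp h_BIG h_GEN
theorem h_BOX : S_BOX := W597.DQ.box h_PP
theorem h_UT : S_UT := W509.DQ.ut W366.DQ.flow
theorem h_GERM : S_GERM := W509.DQ.germ W646.DQ.pert
theorem h_DPATH : S_DPATH := W853.DQ.t_dpath h_PATH (W509.DQ.trv W366.DQ.flow) W7.DQ.rotS h_UT
  h_GERM W7.DQ.ang1
theorem h_NKILL : S_NKILL := W214.DQ.nkill h_DPATH W509.DQ.step (W683.DQ.frag W646.DQ.pert) h_BOX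
  W7.DQ.rotS
theorem h_EXT0 : S_EXT0 := W775.DQ.ext0 h_GERM
theorem h_ST0 : S_ST0 := W462.DQ.st0 W585.DQ.ser
theorem h_K0 : S_K0 := W371.DQ.k0 h_ST0 h_EXT0 (W589.DQ.trdc W366.DQ.flow)
theorem h_LIN : S_LIN := W371.DQ.lin W7.DQ.rotS h_UT
theorem h_LOC0 : S_LOC0 := W371.DQ.loc0 h_LIN h_EXT0
theorem h_EFIN : S_EFIN := W371.DQ.efin h_K0 h_LIN W371.DQ.agl
theorem h_SCAL : S_SCAL := W101.DQ.scal W366.DQ.flow
theorem h_EXTC : S_EXTC := W961.DQ.extc W646.DQ.lpinv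
theorem h_STB : S_STB := W646.DQ.stb W585.DQ.ser
theorem h_FK2 : S_FK2 := W924.DQ.FK2 h_SCAL W883.DQ.EB.extb W571.DQ.pext h_STB W371.DQ.a1
  W371.DQ.a3
theorem h_FL : S_FL := W74.DQ.fl h_SCAL h_EXTC W646.DQ.lpinv W371.DQ.a1 W371.DQ.a3
theorem h_FK1 : S_FK1 := W589.DQ.fk1 h_FK2 h_FL h_SCAL W571.DQ.pext W371.DQ.a3
theorem h_FFIN : S_FFIN := W371.DQ.ffin h_FK1 h_EXTC W67.DQ.comc
theorem h_JB : S_JB := W853.DQ.t_jb W586.DQ.bdry W571.DQ.pext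
theorem h_FACT : S_FACT := W961.DQ.fact W714.DQ.t_JJ h_LOC0
theorem h_GNORM : S_GNORM := W683.DQ.gnorm W586.DQ.bdry
theorem h_MAIN : S_MAIN := W120.DQ.main W714.DQ.t_JJ h_JB h_FACT (W923.DQ.disp W371.DQ.a2)
  h_GNORM h_FFIN h_NKILL h_EFIN W7.DQ.rotS W371.DQ.a1 W371.DQ.a4
theorem h_LB : S_LB := W683.DQ.lb W120.DQ.homog (W683.DQ.qt (W585.DQ.lg W586.DQ.bdry)) h_EXTC h_JB

end Pool.Agent.W133.DQ
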